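import Pool.Agent.W136.FR.Taub

/-! Consequences of one-sided bounds for functions whose Laplace transform is regular near `0`. -/

set_option autoImplicit false

namespace Pool.Agent.W524.DY

open MeasureTheory Filter Topology Set
open Pool.Agent.W263.BSD (LInt lapC lap)
open Pool.Agent.W136.FR

variable {f : ℝ → ℝ} {h : ℂ → ℂ} {ρ : ℝ}

theorem hyp_smul (H : Hyp f h ρ) (c : ℝ) : Hyp (fun u => c * f u) (fun z => c * h z) ρ where
  meas := H.meas.const_mul c
  int := fun w hw => (H.int w hw).const_mul c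
  pos := H.pos
  cont := continuousOn_const.mul H.cont
  eq := fun z hz hzρ => by
    rw [← H.eq z hz hzρ]
    unfold lapC
    rw [← integral_const_mul]
    congr 1; funext u; push_cast; ring

theorem upper_of_incr {b K u1 : ℝ} (hb : 0 < b) (hK : 0 ≤ K)
    (h1 : ∀ u v, u1 ≤ u → u ≤ v → v ≤ u + b → f v ≤ f u + K) : Upper f := by
  set u2 := max u1 0 with hu2
  have h2 : 0 ≤ u2 := le_max_right _ _
  refine ⟨|f u2| + K * (1 + 1 / b), u2, by positivity, h2, fun u hu => ?_⟩
  have h3 := chain' hb hK h1 (le_max_left u1 0) hu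
  have h5 : 0 ≤ u := h2.trans hu
  have h6 : (u - u2) / b ≤ 1 / b * u := by
    rw [div_mul_eq_mul_div, one_mul]
    exact div_le_div_of_nonneg_right (by linarith) hb.le
  have h7 := le_abs_self (f u2)
  have h8 : 0 ≤ 1 / b := by positivity
  have h9 : (1 + (u - u2) / b) * K ≤ (1 + 1 / b * u) * K := by gcongr
  have h10 : (1 + 1 / b * u) * K ≤ K * (1 + 1 / b) * (1 + u) := by
    have : 1 + 1 / b * u ≤ (1 + 1 / b) * (1 + u) := by nlinarith
    calc (1 + 1 / b * u) * K ≤ ((1 + 1 / b) * (1 + u)) * K := by gcongr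
      _ = _ := by ring
  have h11 : |f u2| ≤ |f u2| * (1 + u) := by nlinarith [abs_nonneg (f u2)]
  calc f u ≤ f u2 + (1 + (u - u2) / b) * K := h3
    _ ≤ |f u2| * (1 + u) + K * (1 + 1 / b) * (1 + u) := by linarith
    _ = _ := by ring

/-- **A boundedness theorem**: one-sided control of the increments over a fixed distance. -/
theorem bounded_of_incr (H : Hyp f h ρ) {b K u1 : ℝ} (hb : 0 < b) (hK : 0 ≤ K)
    (h1 : ∀ u v, u1 ≤ u → u ≤ v → v ≤ u + b → f v ≤ f u + K) :
    ∃ M : ℝ, 0 ≤ M ∧ ∀ᶠ u in atTop, |f u| ≤ M := by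
  have hρ := H.pos
  set α : ℝ := min (ρ / 16) (1 / b) with hα'
  have hα : 0 < α := lt_min (by positivity) (by positivity)
  have hα4 : 4 * α ≤ ρ / 4 := by
    have : α ≤ ρ / 16 := min_le_left _ _
    linarith
  have hαb : α * b ≤ 1 := by
    have : α ≤ 1 / b := min_le_right _ _
    rwa [le_div_iff₀ hb] at this
  set c : ℝ := 1 / (K + 1) with hc
  have hc0 : 0 < c := by positivity
  have hcK : c * K ≤ 1 := by
    rw [hc, one_div, inv_mul_le_iff₀ (by positivity)]
    linarith
  have H' := hyp_smul H c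
  have h1' : ∀ u v, max u1 0 ≤ u → u ≤ v → v ≤ u + b → c * f v ≤ c * f u + 1 := by
    intro u v e1 e2 e3
    have := h1 u v ((le_max_left _ _).trans e1) e2 e3
    have := mul_le_mul_of_nonneg_left this hc0.le
    rw [mul_add] at this
    linarith
  have hU : Upper fun u => c * f u := upper_of_incr hb zero_le_one h1'
  obtain ⟨M, U, hM, hU0, hMU⟩ := bounded H' hU hα hα4 hb hαb (le_max_right u1 0) h1'
  refine ⟨M * (K + 1), by positivity, ?_⟩
  filter_upwards [eventually_ge_atTop U] with u hu
  have h2 := hMU u hu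
  rw [abs_mul, abs_of_pos hc0, hc, one_div, inv_mul_le_iff₀ (by positivity)] at h2
  linarith

/-- **An `L¹` bound from a one-sided bound.** -/
theorem l1_bound (H : Hyp f h ρ) {b : ℝ} (hb : 0 < b) {L : ℝ → ℝ} {K1 u0 : ℝ}
    (hL0 : ∀ u, 0 ≤ u → 0 ≤ L u) (hK1 : 0 ≤ K1)
    (hL : ∀ u v, 0 ≤ u → 0 ≤ v → L u ≤ L v + K1 * |u - v|)
    (hf : ∀ u, u0 ≤ u → f u ≤ L u) :
    ∃ C : ℝ, 0 ≤ C ∧ ∀ v, 0 ≤ v → ∫ u in Ioc v (v + b), |f u| ≤ C * (1 + L v) := by
  have hρ := H.pos
  set α : ℝ := min (ρ / 16) (1 / b) with hα'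
  have hα : 0 < α := lt_min (by positivity) (by positivity)
  have hα4 : 4 * α ≤ ρ / 4 := by
    have : α ≤ ρ / 16 := min_le_left _ _
    linarith
  have hαb : α * b ≤ 1 := by
    have : α ≤ 1 / b := min_le_right _ _
    rwa [le_div_iff₀ hb] at this
  set u2 := max u0 0 with hu2
  have hu20 : 0 ≤ u2 := le_max_right _ _
  have hU : Upper f := by
    refine ⟨L 0 + K1, u2, by have := hL0 0 le_rfl; positivity, hu20, fun u hu => ?_⟩
    have hu0 : 0 ≤ u := hu20.trans hu
    have e1 := hf u ((le_max_left _ _).trans hu)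
    have e2 := hL u 0 hu0 le_rfl
    rw [sub_zero, abs_of_nonneg hu0] at e2
    have e3 := hL0 0 le_rfl
    nlinarith
  obtain ⟨CS, hCS0, hCS⟩ := smooth_bounded H hU hα hα4
  set I0 := ∫ t, ker α t with hI0
  have hI00 : 0 ≤ I0 := integral_nonneg (ker_nonneg α)
  set W := ∫ t, (1 + |t|) * ker α t with hW
  have hW0 : 0 ≤ W := integral_nonneg fun t => mul_nonneg (by positivity) (ker_nonneg α t)
  set N := ∫ u in Ioc 0 u2, |f u| with hN
  have hN0 : 0 ≤ N := integral_nonneg fun u => abs_nonneg _
  refine ⟨2 * (16 * N + I0 + K1 * W) + CS, by positivity, fun v hv => ?_⟩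
  have hk := ker_shift_int hα v
  have hLv := hL0 v hv
  have hpi := pos_int H hU hα v
  have hfi := full_int H hU hα hα4 v
  have hloc := local_int H.int
  have hind : Integrable ((Ioc 0 u2).indicator fun u => |f u|) :=
    (integrable_indicator_iff measurableSet_Ioc).mpr (hloc u2).abs
  have hw : Integrable fun u : ℝ => (1 + |u - v|) * ker α (u - v) :=
    (ker_weight hα).comp_sub_right v
  -- the positive part
  have hpos : ∫ u in Ioi 0, max (f u) 0 * ker α (u - v) ≤ 16 * N + (I0 * L v + K1 * W) := by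
    have hmaj : Integrable fun u : ℝ => 16 * (Ioc 0 u2).indicator (fun u => |f u|) u +
        (L v * ker α (u - v) + K1 * ((1 + |u - v|) * ker α (u - v))) :=
      (hind.const_mul 16).add ((hk.const_mul (L v)).add (hw.const_mul K1))
    have e1 : ∫ u in Ioi 0, max (f u) 0 * ker α (u - v) ≤
        ∫ u in Ioi 0, (16 * (Ioc 0 u2).indicator (fun u => |f u|) u +
        (L v * ker α (u - v) + K1 * ((1 + |u - v|) * ker α (u - v)))) := by
      refine setIntegral_mono_on hpi hmaj.integrableOn measurableSet_Ioi fun u hu => ?_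
      have hu' : (0 : ℝ) < u := hu
      have hk0 := ker_nonneg α (u - v)
      have hi0 : 0 ≤ (Ioc 0 u2).indicator (fun u => |f u|) u :=
        indicator_nonneg (fun u _ => abs_nonneg _) u
      rcases le_or_gt u u2 with h3 | h3
      · rw [indicator_of_mem (show u ∈ Ioc 0 u2 from ⟨hu', h3⟩)]
        have e1 : max (f u) 0 ≤ |f u| := max_le (le_abs_self _) (abs_nonneg _)
        have e2 : max (f u) 0 * ker α (u - v) ≤ |f u| * 16 :=
          mul_le_mul e1 (ker_le _ _) hk0 (abs_nonneg _)
        have e3 : 0 ≤ L v * ker α (u - v) := by positivity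
        have e4 : 0 ≤ K1 * ((1 + |u - v|) * ker α (u - v)) := by positivity
        linarith
      · have e0 := hf u ((le_max_left _ _).trans h3.le)
        have e1 : max (f u) 0 ≤ L v + K1 * (1 + |u - v|) := by
          refine max_le ?_ (by positivity)
          have e5 := hL u v hu'.le hv
          nlinarith
        have e2 := mul_le_mul_of_nonneg_right e1 hk0
        have e3 : 0 ≤ 16 * (Ioc 0 u2).indicator (fun u => |f u|) u := by positivity
        nlinarith
    have e2 : ∫ u in Ioi 0, (16 * (Ioc 0 u2).indicator (fun u => |f u|) u +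
        (L v * ker α (u - v) + K1 * ((1 + |u - v|) * ker α (u - v)))) ≤
        ∫ u, (16 * (Ioc 0 u2).indicator (fun u => |f u|) u +
        (L v * ker α (u - v) + K1 * ((1 + |u - v|) * ker α (u - v)))) := by
      refine setIntegral_le_integral hmaj (Eventually.of_forall fun u => ?_)
      have hk0 := ker_nonneg α (u - v)
      have hi0 : 0 ≤ (Ioc 0 u2).indicator (fun u => |f u|) u :=
        indicator_nonneg (fun u _ => abs_nonneg _) u
      show (0 : ℝ) ≤ _
      positivity
    have e3 : ∫ u, (16 * (Ioc 0 u2).indicator (fun u => |f u|) u +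
        (L v * ker α (u - v) + K1 * ((1 + |u - v|) * ker α (u - v)))) =
        16 * N + (I0 * L v + K1 * W) := by
      have i2 : Integrable fun u : ℝ => L v * ker α (u - v) + K1 * ((1 + |u - v|) * ker α (u - v)) :=
        (hk.const_mul (L v)).add (hw.const_mul K1)
      rw [integral_add (hind.const_mul 16) i2,
        integral_add (hk.const_mul (L v)) (hw.const_mul K1), integral_const_mul, integral_const_mul,
        integral_const_mul, integral_indicator measurableSet_Ioc,
        integral_sub_right_eq_self (ker α) v,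
        integral_sub_right_eq_self (fun t => (1 + |t|) * ker α t) v]
      ring
    linarith
  -- the absolute value
  have habs : ∫ u in Ioi 0, |f u| * ker α (u - v) ≤ 2 * (16 * N + (I0 * L v + K1 * W)) + CS := by
    have e1 : ∫ u in Ioi 0, |f u| * ker α (u - v) =
        2 * (∫ u in Ioi 0, max (f u) 0 * ker α (u - v)) - ∫ u in Ioi 0, f u * ker α (u - v) := by
      rw [← integral_const_mul, ← integral_sub (hpi.const_mul 2) hfi]
      refine integral_congr_ae (Eventually.of_forall fun u => ?_)
      simp only []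
      rcases le_total (f u) 0 with h | h
      · rw [max_eq_right h, abs_of_nonpos h]; ring
      · rw [max_eq_left h, abs_of_nonneg h]; ring
    have e2 := (abs_le.mp (hCS v)).1
    rw [e1]
    linarith
  have hai : IntegrableOn (fun u => |f u| * ker α (u - v)) (Ioi 0) := by
    have := ((hpi.const_mul 2).sub hfi)
    refine this.congr (Eventually.of_forall fun u => ?_)
    simp only [Pi.sub_apply]
    rcases le_total (f u) 0 with h | h
    · rw [max_eq_right h, abs_of_nonpos h]; ring
    · rw [max_eq_left h, abs_of_nonneg h]; ring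
  have hlow : ∫ u in Ioc v (v + b), |f u| ≤ ∫ u in Ioi 0, |f u| * ker α (u - v) := by
    have hsub : Ioc v (v + b) ⊆ Ioi 0 := fun u hu => lt_of_le_of_lt hv hu.1
    have e1 : ∫ u in Ioc v (v + b), |f u| * ker α (u - v) ≤ ∫ u in Ioi 0, |f u| * ker α (u - v) := by
      refine setIntegral_mono_set hai ?_ hsub.eventuallyLE
      exact Eventually.of_forall fun u => mul_nonneg (abs_nonneg _) (ker_nonneg _ _)
    refine le_trans ?_ e1
    have hi : IntegrableOn (fun u => |f u|) (Ioc v (v + b)) :=
      ((hloc (v + b)).mono_set (Ioc_subset_Ioc_left hv)).abs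
    refine setIntegral_mono_on hi (hai.mono_set hsub) measurableSet_Ioc fun u hu => ?_
    have e4 : 1 ≤ ker α (u - v) := by
      apply ker_ge
      rw [abs_of_nonneg (mul_nonneg hα.le (by linarith [hu.1]))]
      have : u - v ≤ b := by linarith [hu.2]
      nlinarith
    exact le_mul_of_one_le_right (abs_nonneg _) e4
  have hfin : 2 * (16 * N + (I0 * L v + K1 * W)) + CS ≤
      (2 * (16 * N + I0 + K1 * W) + CS) * (1 + L v) := by
    have e1 : 0 ≤ (2 * (16 * N + K1 * W) + CS) * L v := by positivity
    nlinarith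
  linarith

end Pool.Agent.W524.DY
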