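import Pool.Agent.W524.DY.Loc
import Pool.Agent.W524.DY.Tb

/-! Exact order of magnitude from one-sided conditions on windows `[x, lx]`, and mean values from upper
bounds, for abstract Birch and Swinnerton-Dyer products. -/

set_option autoImplicit false

namespace Pool.Agent.W524.DY

open MeasureTheory Filter Topology Set
open Pool.Agent.W263.BSD
open Pool.Agent.W524.OS
open Pool.Agent.W136.FR (Hyp Upper)

variable {P : ℝ → ℝ} {F : ℂ → ℂ} {a : ℝ → ℝ} {G : ℂ → ℂ} {B : ℝ}

theorem lin_exp (K : ℝ) {ε : ℝ} (hε : 0 < ε) : ∀ᶠ u in atTop, K * (1 + u) ≤ Real.exp (ε * u) := by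
  have h1 := (isLittleO_pow_exp_pos_mul_atTop 1 hε).bound
    (show (0 : ℝ) < 1 / (2 * |K| + 1) by positivity)
  filter_upwards [h1, eventually_ge_atTop 1] with u h1 h2
  rw [pow_one, Real.norm_of_nonneg (by linarith), Real.norm_of_nonneg (Real.exp_pos _).le,
    one_div, inv_mul_eq_div, le_div_iff₀ (by positivity)] at h1
  have h3 : K * (1 + u) ≤ |K| * (2 * u) :=
    mul_le_mul (le_abs_self K) (by linarith) (by linarith) (abs_nonneg _)
  linarith

/-- windows of `P` in terms of `u` -/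
theorem win_transfer (D : BS P F a G B) {l K : ℝ} (hl : 1 < l)
    (h : ∀ᶠ x : ℝ in atTop, ∀ y, x ≤ y → y ≤ l * x → P y ≤ K * P x) :
    ∃ K' u0 : ℝ, 0 ≤ K' ∧ 1 ≤ u0 ∧ ∀ u v, u0 ≤ u → u ≤ v → v ≤ u + Real.log l → a v ≤ a u + K' := by
  obtain ⟨X, hX⟩ := eventually_atTop.mp h
  set X' := max X (Real.exp 1) with hX'
  have hX0 : 0 < X' := lt_of_lt_of_le (Real.exp_pos 1) (le_max_right _ _)
  have hB0 := D.B0
  refine ⟨|Real.log K| + 2 * B, Real.log X', by positivity, ?_, ?_⟩
  · rw [Real.le_log_iff_exp_le hX0]; exact le_max_right _ _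
  intro u v h1 h2 h3
  have hu1 : 1 ≤ u := by
    have : 1 ≤ Real.log X' := by rw [Real.le_log_iff_exp_le hX0]; exact le_max_right _ _
    linarith
  have h4 : X' ≤ Real.exp u := by rwa [← Real.log_le_iff_le_exp hX0]
  have h5 := hX (Real.exp u) ((le_max_left _ _).trans h4) (Real.exp v) (Real.exp_le_exp.mpr h2)
    (by
      calc Real.exp v ≤ Real.exp (u + Real.log l) := Real.exp_le_exp.mpr h3
        _ = l * Real.exp u := by rw [Real.exp_add, Real.exp_log (by linarith)]; ring)
  have hKpos : 0 < K := by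
    by_contra hneg
    push Not at hneg
    have := mul_nonpos_of_nonpos_of_nonneg hneg (D.pos (Real.exp u)).le
    linarith [D.pos (Real.exp v)]
  have h6 := Real.log_le_log (D.pos _) h5
  rw [Real.log_mul hKpos.ne' (D.pos _).ne'] at h6
  have h7 := (abs_le.mp (D.close u (by linarith))).2
  have h8 := (abs_le.mp (D.close v (by linarith))).1
  have := le_abs_self (Real.log K)
  linarith

theorem win_transfer_lower (D : BS P F a G B) {l K : ℝ} (hl : 1 < l)
    (h : ∀ᶠ x : ℝ in atTop, ∀ y, x ≤ y → y ≤ l * x → P x ≤ K * P y) :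
    ∃ K' u0 : ℝ, 0 ≤ K' ∧ 1 ≤ u0 ∧ ∀ u v, u0 ≤ u → u ≤ v → v ≤ u + Real.log l → -a v ≤ -a u + K' := by
  obtain ⟨X, hX⟩ := eventually_atTop.mp h
  set X' := max X (Real.exp 1) with hX'
  have hX0 : 0 < X' := lt_of_lt_of_le (Real.exp_pos 1) (le_max_right _ _)
  have hB0 := D.B0
  refine ⟨|Real.log K| + 2 * B, Real.log X', by positivity, ?_, ?_⟩
  · rw [Real.le_log_iff_exp_le hX0]; exact le_max_right _ _
  intro u v h1 h2 h3
  have hu1 : 1 ≤ u := by
    have : 1 ≤ Real.log X' := by rw [Real.le_log_iff_exp_le hX0]; exact le_max_right _ _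
    linarith
  have h4 : X' ≤ Real.exp u := by rwa [← Real.log_le_iff_le_exp hX0]
  have h5 := hX (Real.exp u) ((le_max_left _ _).trans h4) (Real.exp v) (Real.exp_le_exp.mpr h2)
    (by
      calc Real.exp v ≤ Real.exp (u + Real.log l) := Real.exp_le_exp.mpr h3
        _ = l * Real.exp u := by rw [Real.exp_add, Real.exp_log (by linarith)]; ring)
  have hKpos : 0 < K := by
    by_contra hneg
    push Not at hneg
    have := mul_nonpos_of_nonpos_of_nonneg hneg (D.pos (Real.exp v)).le
    linarith [D.pos (Real.exp u)]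
  have h6 := Real.log_le_log (D.pos _) h5
  rw [Real.log_mul hKpos.ne' (D.pos _).ne'] at h6
  have h7 := (abs_le.mp (D.close u (by linarith))).1
  have h8 := (abs_le.mp (D.close v (by linarith))).2
  have := le_abs_self (Real.log K)
  linarith

theorem order_transfer (D : BS P F a G B) {r : ℕ} {M : ℝ} (_hM : 0 ≤ M)
    (h : ∀ᶠ u in atTop, |a u - r * Real.log u| ≤ M) :
    ∃ c C : ℝ, 0 < c ∧ ∀ᶠ x : ℝ in atTop, c * (Real.log x) ^ r ≤ P x ∧
      P x ≤ C * (Real.log x) ^ r := by
  refine ⟨Real.exp (-(M + B)), Real.exp (M + B), Real.exp_pos _, ?_⟩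
  filter_upwards [eventually_ge_atTop (Real.exp 2), Real.tendsto_log_atTop.eventually h] with x hx h2
  have hx0 : 0 < x := lt_of_lt_of_le (Real.exp_pos 2) hx
  set u := Real.log x with hu
  have hu2 : 2 ≤ u := by rw [hu, Real.le_log_iff_exp_le hx0]; exact hx
  have hu0 : 0 < u := by linarith
  have hxu : x = Real.exp u := by rw [hu, Real.exp_log hx0]
  have h1 := abs_le.mp (D.close u hu0)
  have h2 := abs_le.mp h2
  rw [← hxu] at h1
  have h5 : P x = Real.exp (Real.log (P x)) := (Real.exp_log (D.pos x)).symm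
  have h6 : u ^ r = Real.exp (r * Real.log u) := by
    rw [mul_comm, Real.exp_mul, Real.exp_log hu0, Real.rpow_natCast]
  rw [h5, h6, ← Real.exp_add, ← Real.exp_add, Real.exp_le_exp, Real.exp_le_exp]
  constructor <;> linarith

theorem order_of_f0 (D : BS P F a G B) {r : ℕ} {C0 M : ℝ}
    (h : ∀ᶠ u in atTop, |f0 a r C0 u| ≤ M) (hM : 0 ≤ M) :
    ∃ c C : ℝ, 0 < c ∧ ∀ᶠ x : ℝ in atTop, c * (Real.log x) ^ r ≤ P x ∧
      P x ≤ C * (Real.log x) ^ r := by
  refine order_transfer D (M := M + |C0|) (by positivity) ?_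
  filter_upwards [h] with u hu
  unfold f0 at hu
  have h1 : a u - r * Real.log u = (a u - r * Real.log u - C0 * 1) + C0 := by ring
  rw [h1]
  exact (abs_add_le _ _).trans (by linarith)

/-- **Upper windows imply the exact order.** -/
theorem order_of_upper (D : BS P F a G B) (hG : DifferentiableOn ℂ G (Metric.ball 0 1))
    (hFd : Differentiable ℂ F) {r : ℕ} (hr : analyticOrderAt F 1 = r) {l K : ℝ} (hl : 1 < l)
    (h : ∀ᶠ x : ℝ in atTop, ∀ y, x ≤ y → y ≤ l * x → P y ≤ K * P x) :
    ∃ c C : ℝ, 0 < c ∧ ∀ᶠ x : ℝ in atTop, c * (Real.log x) ^ r ≤ P x ∧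
      P x ≤ C * (Real.log x) ^ r := by
  obtain ⟨K', u0, hK', hu0, h1⟩ := win_transfer D hl h
  have hb : 0 < Real.log l := Real.log_pos hl
  have hconv : ∀ w > 0, LInt a w := by
    obtain ⟨C, u1, hC, hu1, hle⟩ := upper_of_incr hb hK' h1
    refine D.data.conv_of_upper D.hloc fun ε hε => ?_
    filter_upwards [lin_exp C hε, eventually_ge_atTop u1] with u h1 h2
    exact (hle u h2).trans h1
  obtain ⟨C0, hh, ρ, H⟩ := local_hyp D hG hFd hr hconv
  obtain ⟨M, hM0, hM⟩ := bounded_of_incr H hb hK' (u1 := u0) fun u v e1 e2 e3 => by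
    have e4 := h1 u v e1 e2 e3
    have e5 : (r : ℝ) * Real.log u ≤ r * Real.log v :=
      mul_le_mul_of_nonneg_left (Real.log_le_log (by linarith) e2) (by positivity)
    unfold f0
    linarith
  exact order_of_f0 D hM hM0

/-- **Lower windows imply the exact order.** -/
theorem order_of_lower (D : BS P F a G B) (hG : DifferentiableOn ℂ G (Metric.ball 0 1))
    (hFd : Differentiable ℂ F) {r : ℕ} (hr : analyticOrderAt F 1 = r)
    (hne : ∀ s : ℝ, 1 < s → F s ≠ 0) {l K : ℝ} (hl : 1 < l)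
    (h : ∀ᶠ x : ℝ in atTop, ∀ y, x ≤ y → y ≤ l * x → P x ≤ K * P y) :
    ∃ c C : ℝ, 0 < c ∧ ∀ᶠ x : ℝ in atTop, c * (Real.log x) ^ r ≤ P x ∧
      P x ≤ C * (Real.log x) ^ r := by
  obtain ⟨K', u0, hK', hu0, h1⟩ := win_transfer_lower D hl h
  have hb : 0 < Real.log l := Real.log_pos hl
  have hconv : ∀ w > 0, LInt a w := by
    obtain ⟨C, u1, hC, hu1, hle⟩ := upper_of_incr (f := fun u => -a u) hb hK' h1
    refine D.data.conv_of_lower D.hloc (BS.phi_ne hne) fun ε hε => ?_
    filter_upwards [lin_exp C hε, eventually_ge_atTop u1] with u h1 h2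
    have := hle u h2
    linarith
  obtain ⟨C0, hh, ρ, H⟩ := local_hyp D hG hFd hr hconv
  have H' := hyp_smul H (-1)
  obtain ⟨M, hM0, hM⟩ := bounded_of_incr H' hb (K := K' + r * Real.log l) (by positivity)
    (u1 := u0) fun u v e1 e2 e3 => by
    have e4 := h1 u v e1 e2 e3
    have hu1 : 1 ≤ u := hu0.trans e1
    have e5 : Real.log v - Real.log u ≤ Real.log l := by
      rw [← Real.log_div (by linarith) (by linarith)]
      have e6 := Real.log_le_sub_one_of_pos (show 0 < v / u by
        have : 0 < v := by linarith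
        positivity)
      have e7 : v / u - 1 = (v - u) / u := by field_simp
      have e8 : (v - u) / u ≤ v - u := div_le_self (by linarith) hu1
      linarith
    have e6 : (r : ℝ) * (Real.log v - Real.log u) ≤ r * Real.log l :=
      mul_le_mul_of_nonneg_left e5 (by positivity)
    unfold f0
    linarith
  refine order_of_f0 D (C0 := C0) (M := M) ?_ hM0
  filter_upwards [hM] with u hu
  rwa [neg_one_mul, abs_neg] at hu

/-- upper windows from the exact order -/
theorem upper_of_order {r : ℕ} (l : ℝ)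
    (h : ∃ c C : ℝ, 0 < c ∧ ∀ᶠ x : ℝ in atTop, c * (Real.log x) ^ r ≤ P x ∧
      P x ≤ C * (Real.log x) ^ r) :
    ∃ K : ℝ, ∀ᶠ x : ℝ in atTop, ∀ y, x ≤ y → y ≤ l * x → P y ≤ K * P x := by
  obtain ⟨c, C, hc, h⟩ := h
  obtain ⟨X, hX⟩ := eventually_atTop.mp h
  refine ⟨|C| * 2 ^ r / c, ?_⟩
  filter_upwards [eventually_ge_atTop (max X (Real.exp 1)), eventually_ge_atTop l] with x hx hxl y h1 h2
  have hx1 : Real.exp 1 ≤ x := (le_max_right _ _).trans hx
  have hx0 : 0 < x := lt_of_lt_of_le (Real.exp_pos 1) hx1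
  have hl : 1 ≤ Real.log x := by rwa [Real.le_log_iff_exp_le hx0]
  have e1 := (hX x ((le_max_left _ _).trans hx)).1
  have e2 := (hX y (((le_max_left _ _).trans hx).trans h1)).2
  have hly : Real.log y ≤ 2 * Real.log x := by
    have h3 : y ≤ x ^ 2 := by nlinarith
    have := Real.log_le_log (by linarith) h3
    rwa [Real.log_pow] at this
  have hly0 : 0 ≤ Real.log y := Real.log_nonneg (by
    have := Real.one_le_exp (zero_le_one : (0 : ℝ) ≤ 1)
    linarith)
  calc P y ≤ C * Real.log y ^ r := e2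
    _ ≤ |C| * (2 * Real.log x) ^ r := by
        refine mul_le_mul (le_abs_self C) (pow_le_pow_left₀ hly0 hly r) (by positivity)
          (abs_nonneg _)
    _ = |C| * 2 ^ r / c * (c * Real.log x ^ r) := by rw [mul_pow]; field_simp
    _ ≤ |C| * 2 ^ r / c * P x := by gcongr

theorem lower_of_order {r : ℕ} (l : ℝ)
    (h : ∃ c C : ℝ, 0 < c ∧ ∀ᶠ x : ℝ in atTop, c * (Real.log x) ^ r ≤ P x ∧
      P x ≤ C * (Real.log x) ^ r) :
    ∃ K : ℝ, ∀ᶠ x : ℝ in atTop, ∀ y, x ≤ y → y ≤ l * x → P x ≤ K * P y := by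
  obtain ⟨c, C, hc, h⟩ := h
  obtain ⟨X, hX⟩ := eventually_atTop.mp h
  refine ⟨|C| / c, ?_⟩
  filter_upwards [eventually_ge_atTop (max X (Real.exp 1))] with x hx y h1 h2
  have hx1 : Real.exp 1 ≤ x := (le_max_right _ _).trans hx
  have hx0 : 0 < x := lt_of_lt_of_le (Real.exp_pos 1) hx1
  have hl : 1 ≤ Real.log x := by rwa [Real.le_log_iff_exp_le hx0]
  have e1 := (hX x ((le_max_left _ _).trans hx)).2
  have e2 := (hX y (((le_max_left _ _).trans hx).trans h1)).1
  have hly : Real.log x ≤ Real.log y := Real.log_le_log hx0 h1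
  calc P x ≤ C * Real.log x ^ r := e1
    _ ≤ |C| * Real.log y ^ r := by
        refine mul_le_mul (le_abs_self C) (pow_le_pow_left₀ (by linarith) hly r) (by positivity)
          (abs_nonneg _)
    _ = |C| / c * (c * Real.log y ^ r) := by field_simp
    _ ≤ |C| / c * P y := by gcongr

/-- **The one-sided criterion for the exact order of magnitude, on short windows.** -/
theorem order_tfae (D : BS P F a G B) (hG : DifferentiableOn ℂ G (Metric.ball 0 1))
    (hFd : Differentiable ℂ F) {r : ℕ} (hr : analyticOrderAt F 1 = r) :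
    List.TFAE [
      ∃ c C : ℝ, 0 < c ∧ ∀ᶠ x : ℝ in atTop, c * (Real.log x) ^ r ≤ P x ∧
        P x ≤ C * (Real.log x) ^ r,
      ∃ l K : ℝ, 1 < l ∧ ∀ᶠ x : ℝ in atTop, ∀ y, x ≤ y → y ≤ l * x → P y ≤ K * P x,
      (∀ s : ℝ, 1 < s → F s ≠ 0) ∧ ∃ l K : ℝ, 1 < l ∧ ∀ᶠ x : ℝ in atTop, ∀ y, x ≤ y → y ≤ l * x →
        P x ≤ K * P y] := by
  tfae_have 1 → 2 := fun h => by
    obtain ⟨K, hK⟩ := upper_of_order 2 h
    exact ⟨2, K, one_lt_two, hK⟩
  tfae_have 2 → 1 := by
    rintro ⟨l, K, hl, h⟩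
    exact order_of_upper D hG hFd hr hl h
  tfae_have 1 → 3 := fun h => by
    obtain ⟨K, hK⟩ := lower_of_order 2 h
    refine ⟨?_, 2, K, one_lt_two, hK⟩
    obtain ⟨c, C, hc, h⟩ := h
    exact fun s hs => D.no_zeros_of_order (h.mono fun x hx => hx.2) (by simpa using hs)
  tfae_have 3 → 1 := by
    rintro ⟨hne, l, K, hl, h⟩
    exact order_of_lower D hG hFd hr hne hl h
  tfae_finish

/-- The rank half. -/
theorem window_rank (D : BS P F a G B) (hG : DifferentiableOn ℂ G (Metric.ball 0 1))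
    (hFd : Differentiable ℂ F) {r : ℕ} (hr : analyticOrderAt F 1 = r) (m : ℕ)
    (hK : ∃ l K : ℝ, 1 < l ∧ ∀ᶠ x : ℝ in atTop, ∀ y, x ≤ y → y ≤ l * x → P y ≤ K * P x) :
    (∀ s : ℂ, 1 < s.re → F s ≠ 0) ∧
    (r = m ↔ ∃ c C : ℝ, 0 < c ∧ ∀ᶠ x : ℝ in atTop, c * (Real.log x) ^ m ≤ P x ∧
        P x ≤ C * (Real.log x) ^ m) := by
  have h1 := ((order_tfae D hG hFd hr).out 1 0).mp hK
  refine ⟨?_, ?_⟩
  · obtain ⟨c, C, hc, h⟩ := h1
    exact fun s hs => D.no_zeros_of_order (h.mono fun x hx => hx.2) hs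
  constructor
  · rintro rfl
    exact h1
  · rintro ⟨c', C', hc', h2⟩
    obtain ⟨c, C, hc, h⟩ := h1
    have h3 : r ≤ m := le_of_orders hc (h.mono fun x hx => hx.1) (h2.mono fun x hx => hx.2)
    have h4 : m ≤ r := le_of_orders hc' (h2.mono fun x hx => hx.1) (h.mono fun x hx => hx.2)
    exact le_antisymm h3 h4

/-! ### deviations in the mean -/

/-- the mean deviation over a dyadic interval -/
noncomputable def dev (P : ℝ → ℝ) (r : ℕ) (x : ℝ) : ℝ :=
  ∫ t in Ioc x (2 * x), |Real.log (P t) - r * Real.log (Real.log t)| / t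

theorem integral_log_change' (g : ℝ → ℝ) {x y : ℝ} (hx : 0 < x) (hy : 0 < y) :
    ∫ t in Ioc x y, g t / t = ∫ u in Ioc (Real.log x) (Real.log y), g (Real.exp u) := by
  have h1 : Real.exp '' Ioc (Real.log x) (Real.log y) = Ioc x y := by
    ext z
    simp only [mem_image, mem_Ioc]
    constructor
    · rintro ⟨u, ⟨h1, h2⟩, rfl⟩
      exact ⟨(Real.log_lt_iff_lt_exp hx).1 h1, (Real.le_log_iff_exp_le hy).1 h2⟩
    · rintro ⟨h1, h2⟩
      have hz : 0 < z := hx.trans h1
      exact ⟨Real.log z, ⟨Real.log_lt_log hx h1, Real.log_le_log hz h2⟩, Real.exp_log hz⟩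
  rw [← h1, integral_image_eq_integral_abs_deriv_smul measurableSet_Ioc
    (fun u _ => (Real.hasDerivAt_exp u).hasDerivWithinAt) Real.exp_injective.injOn]
  refine setIntegral_congr_fun measurableSet_Ioc fun u _ => ?_
  simp only [Real.abs_exp, smul_eq_mul]
  have := (Real.exp_pos u).ne'
  field_simp

theorem conv_of_pow (D : BS P F a G B) {κ C : ℝ}
    (h : ∀ᶠ x : ℝ in atTop, P x ≤ C * (Real.log x) ^ κ) :
    (∀ w > 0, LInt a w) ∧ ∃ K : ℝ, ∀ᶠ u in atTop, a u ≤ κ * Real.log u + K := by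
  have h1 : ∃ K : ℝ, ∀ᶠ u in atTop, a u ≤ κ * Real.log u + K := by
    refine ⟨Real.log C + B, ?_⟩
    filter_upwards [Real.tendsto_exp_atTop.eventually h, eventually_gt_atTop 0] with u h2 hu
    rw [Real.log_exp] at h2
    have hC : 0 < C := by
      by_contra hneg
      push Not at hneg
      have := mul_nonpos_of_nonpos_of_nonneg hneg (Real.rpow_pos_of_pos hu κ).le
      linarith [D.pos (Real.exp u)]
    have h3 := Real.log_le_log (D.pos _) h2
    rw [Real.log_mul hC.ne' (Real.rpow_pos_of_pos hu κ).ne', Real.log_rpow hu] at h3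
    have h4 := (abs_le.mp (D.close u hu)).1
    linarith
  refine ⟨?_, h1⟩
  obtain ⟨K, hK⟩ := h1
  refine D.data.conv_of_upper D.hloc fun ε hε => ?_
  filter_upwards [hK, lin_exp (|κ| + |K|) hε, eventually_ge_atTop 1] with u h2 h3 h4
  have h5 : Real.log u ≤ u := (Real.log_le_sub_one_of_pos (by linarith)).trans (by linarith)
  have h6 : 0 ≤ Real.log u := Real.log_nonneg h4
  have h7 : κ * Real.log u ≤ |κ| * (1 + u) :=
    mul_le_mul (le_abs_self κ) (by linarith) h6 (abs_nonneg _)
  have h8 : K ≤ |K| * (1 + u) := by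
    have := le_abs_self K
    nlinarith [abs_nonneg K]
  linarith

/-- the deviation in terms of `f0` -/
theorem dev_le (D : BS P F a G B) {r : ℕ} {C0 : ℝ} {x : ℝ} (hx : Real.exp 1 ≤ x)
    (hi : IntegrableOn (f0 a r C0) (Ioc (Real.log x) (Real.log x + Real.log 2))) :
    dev P r x ≤ (∫ u in Ioc (Real.log x) (Real.log x + Real.log 2), |f0 a r C0 u|) +
      (|C0| + B) * Real.log 2 := by
  have hx0 : 0 < x := lt_of_lt_of_le (Real.exp_pos 1) hx
  have hlx : 1 ≤ Real.log x := by rwa [Real.le_log_iff_exp_le hx0]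
  have hl2 : 0 < Real.log 2 := Real.log_pos one_lt_two
  have hB0 := D.B0
  unfold dev
  rw [integral_log_change' (fun t => |Real.log (P t) - r * Real.log (Real.log t)|) hx0 (by linarith),
    Real.log_mul two_ne_zero hx0.ne', add_comm (Real.log 2)]
  have e1 : ∫ u in Ioc (Real.log x) (Real.log x + Real.log 2),
      |Real.log (P (Real.exp u)) - r * Real.log (Real.log (Real.exp u))| ≤
      ∫ u in Ioc (Real.log x) (Real.log x + Real.log 2), (|f0 a r C0 u| + (|C0| + B)) := by
    have hc : IntegrableOn (fun _ : ℝ => |C0| + B) (Ioc (Real.log x) (Real.log x + Real.log 2)) :=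
      integrableOn_const (by simp) (by simp)
    have hbd : ∀ u ∈ Ioc (Real.log x) (Real.log x + Real.log 2),
        |Real.log (P (Real.exp u)) - r * Real.log (Real.log (Real.exp u))| ≤
          |f0 a r C0 u| + (|C0| + B) := by
      intro u hu
      have hu0 : 0 < u := by linarith [hu.1]
      have e2 := D.close u hu0
      rw [Real.log_exp]
      have e3 : Real.log (P (Real.exp u)) - r * Real.log u =
          (Real.log (P (Real.exp u)) - a u) + (f0 a r C0 u + C0) := by
        unfold f0; ring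
      rw [e3]
      have e4 := abs_add_le (Real.log (P (Real.exp u)) - a u) (f0 a r C0 u + C0)
      have e5 := abs_add_le (f0 a r C0 u) C0
      linarith
    refine setIntegral_mono_on ?_ (hi.abs.add hc) measurableSet_Ioc hbd
    refine Integrable.mono' (hi.abs.add hc) ?_ ?_
    · simp only [Real.log_exp]
      have hm := D.meas
      exact ((hm.sub (Real.measurable_log.const_mul _)).abs).aestronglyMeasurable
    · filter_upwards [ae_restrict_mem measurableSet_Ioc] with u hu
      rw [Real.norm_eq_abs, abs_abs]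
      exact hbd u hu
  refine e1.trans (le_of_eq ?_)
  have hc : IntegrableOn (fun _ : ℝ => |C0| + B) (Ioc (Real.log x) (Real.log x + Real.log 2)) :=
    integrableOn_const (by simp) (by simp)
  rw [integral_add hi.abs hc, setIntegral_const, measureReal_def, Real.volume_Ioc,
    add_sub_cancel_left, ENNReal.toReal_ofReal hl2.le, smul_eq_mul]
  ring

/-- **Mean deviations from an upper bound.** -/
theorem dev_of_upper (D : BS P F a G B) (hG : DifferentiableOn ℂ G (Metric.ball 0 1))
    (hFd : Differentiable ℂ F) {r : ℕ} (hr : analyticOrderAt F 1 = r) {κ C : ℝ}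
    (h : ∀ᶠ x : ℝ in atTop, P x ≤ C * (Real.log x) ^ κ) :
    (∃ C' : ℝ, ∀ᶠ x : ℝ in atTop, dev P r x ≤ C' * Real.log (Real.log x)) ∧
    (κ = r → ∃ C' : ℝ, ∀ᶠ x : ℝ in atTop, dev P r x ≤ C') := by
  obtain ⟨hconv, K, hK⟩ := conv_of_pow D h
  obtain ⟨C0, hh, ρ, H⟩ := local_hyp D hG hFd hr hconv
  have hl2 : 0 < Real.log 2 := Real.log_pos one_lt_two
  have hB0 := D.B0
  have hloc : ∀ x : ℝ, Real.exp 1 ≤ x →
      IntegrableOn (f0 a r C0) (Ioc (Real.log x) (Real.log x + Real.log 2)) := by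
    intro x hx
    have hx0 : 0 < x := lt_of_lt_of_le (Real.exp_pos 1) hx
    have hlx : 1 ≤ Real.log x := by rwa [Real.le_log_iff_exp_le hx0]
    exact (Pool.Agent.W136.FR.local_int H.int _).mono_set (Ioc_subset_Ioc_left (by linarith))
  constructor
  · set κ1 : ℝ := |κ - r| + |K - C0| with hκ1
    have hκ10 : 0 ≤ κ1 := by positivity
    obtain ⟨u0, hu0⟩ := eventually_atTop.mp (hK.and (eventually_ge_atTop 1))
    obtain ⟨C1, hC1, hC1'⟩ := l1_bound H hl2 (L := fun u => κ1 * (1 + Real.log (1 + u)))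
      (K1 := κ1) (u0 := u0) (fun u hu => by
        have := Real.log_nonneg (by linarith : (1 : ℝ) ≤ 1 + u)
        positivity) hκ10 (fun u v hu hv => by
        have e1 : Real.log (1 + u) ≤ Real.log (1 + v) + |u - v| := by
          have e2 : Real.log (1 + u) - Real.log (1 + v) ≤ |u - v| := by
            rw [← Real.log_div (by linarith) (by linarith)]
            have e3 := Real.log_le_sub_one_of_pos (show 0 < (1 + u) / (1 + v) by positivity)
            have e4 : (1 + u) / (1 + v) - 1 = (u - v) / (1 + v) := by field_simp; ring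
            have e5 : (u - v) / (1 + v) ≤ |u - v| / (1 + v) := by
              gcongr
              exact le_abs_self _
            have e6 : |u - v| / (1 + v) ≤ |u - v| := div_le_self (abs_nonneg _) (by linarith)
            linarith
          linarith
        nlinarith) (fun u hu => by
        obtain ⟨e1, e2⟩ := hu0 u hu
        have e3 : 0 ≤ Real.log u := Real.log_nonneg e2
        have e4 : Real.log u ≤ Real.log (1 + u) := Real.log_le_log (by linarith) (by linarith)
        have e5 : (κ - r) * Real.log u ≤ |κ - r| * (1 + Real.log (1 + u)) :=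
          mul_le_mul (le_abs_self _) (by linarith) e3 (abs_nonneg _)
        have e6 : K - C0 ≤ |K - C0| * (1 + Real.log (1 + u)) := by
          have := le_abs_self (K - C0)
          have := abs_nonneg (K - C0)
          nlinarith
        unfold f0
        rw [hκ1]
        nlinarith)
    refine ⟨C1 * (1 + κ1 * 3) + (|C0| + B) * Real.log 2, ?_⟩
    filter_upwards [eventually_ge_atTop (Real.exp (Real.exp 1))] with x hx
    have hx0 : 0 < x := lt_of_lt_of_le (Real.exp_pos _) hx
    have hlx : Real.exp 1 ≤ Real.log x := by rwa [Real.le_log_iff_exp_le hx0]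
    have h1e : 1 ≤ Real.exp 1 := Real.one_le_exp zero_le_one
    have hlx0 : 0 < Real.log x := by linarith
    have hllx : 1 ≤ Real.log (Real.log x) := by rwa [Real.le_log_iff_exp_le hlx0]
    have hx1 : Real.exp 1 ≤ x := (Real.exp_le_exp.2 h1e).trans hx
    have e1 := dev_le D hx1 (hloc x hx1)
    have e2 := hC1' (Real.log x) hlx0.le
    have e3 : Real.log (1 + Real.log x) ≤ 2 * Real.log (Real.log x) := by
      have : 1 + Real.log x ≤ (Real.log x) ^ 2 := by
        have : 2 ≤ Real.exp 1 := by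
          have := Real.add_one_le_exp (1 : ℝ)
          linarith
        nlinarith
      have := Real.log_le_log (by linarith) this
      rwa [Real.log_pow] at this
    have e4 : C1 * (1 + κ1 * (1 + Real.log (1 + Real.log x))) ≤
        C1 * (1 + κ1 * 3) * Real.log (Real.log x) := by
      have e5 : 1 + κ1 * (1 + Real.log (1 + Real.log x)) ≤
          (1 + κ1 * 3) * Real.log (Real.log x) := by nlinarith
      calc _ ≤ C1 * ((1 + κ1 * 3) * Real.log (Real.log x)) := by gcongr
        _ = _ := by ring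
    have e6 : (|C0| + B) * Real.log 2 ≤ (|C0| + B) * Real.log 2 * Real.log (Real.log x) :=
      le_mul_of_one_le_right (by positivity) hllx
    linarith
  · intro hκ
    obtain ⟨u0, hu0⟩ := eventually_atTop.mp (hK.and (eventually_ge_atTop 1))
    obtain ⟨C1, hC1, hC1'⟩ := l1_bound H hl2 (L := fun _ => |K - C0|) (K1 := 0) (u0 := u0)
      (fun u hu => abs_nonneg _) le_rfl (fun u v hu hv => by simp) (fun u hu => by
        obtain ⟨e1, e2⟩ := hu0 u hu
        unfold f0
        rw [hκ] at e1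
        have := le_abs_self (K - C0)
        linarith)
    refine ⟨C1 * (1 + |K - C0|) + (|C0| + B) * Real.log 2, ?_⟩
    filter_upwards [eventually_ge_atTop (Real.exp 1)] with x hx
    have hx0 : 0 < x := lt_of_lt_of_le (Real.exp_pos 1) hx
    have hlx : 1 ≤ Real.log x := by rwa [Real.le_log_iff_exp_le hx0]
    have e1 := dev_le D hx (hloc x hx)
    have e2 := hC1' (Real.log x) (by linarith)
    linarith

end Pool.Agent.W524.DY
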