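import Pool.Agent.W524.OS.Last
import Pool.Agent.W136.FR.Local

/-! The local behaviour of the Laplace transform, for abstract Birch and Swinnerton-Dyer products. -/

set_option autoImplicit false

namespace Pool.Agent.W524.DY

open MeasureTheory Filter Topology Set
open Pool.Agent.W263.BSD
open Pool.Agent.W524.OS
open Pool.Agent.W136.FR (Hyp Upper local_log log_LInt log_lapC one_lapC lapC_sub' lapC_const_mul')

variable {P : ℝ → ℝ} {F : ℂ → ℂ} {a : ℝ → ℝ} {G : ℂ → ℂ} {B : ℝ}

/-- the normalised function -/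
noncomputable def f0 (a : ℝ → ℝ) (r : ℕ) (C0 : ℝ) (u : ℝ) : ℝ := a u - r * Real.log u - C0 * 1

theorem local_hyp (D : BS P F a G B) (hG : DifferentiableOn ℂ G (Metric.ball 0 1))
    (hFd : Differentiable ℂ F) {r : ℕ} (hr : analyticOrderAt F 1 = r)
    (hconv : ∀ w > 0, LInt a w) :
    ∃ (C0 : ℝ) (h : ℂ → ℂ) (ρ : ℝ), Hyp (f0 a r C0) h ρ := by
  set lam : ℂ → ℂ := fun z => G z - z ^ 1 * lapC a z with hlam
  have heq := D.data.eq_of_conv le_rfl hconv
  obtain ⟨ρ1, q, hρ1, hq, hlq⟩ := local_log (Φ := fun w => F (1 + w)) (lam := lam)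
    (D.ordZero hFd hr) (fun z hz =>
    (D.data.hG z hz).sub ((differentiableAt_id.pow 1).mul
      (lapC_differentiableAt D.data.meas hconv hz))) (fun z hz => (heq z hz).symm)
  set ρ : ℝ := min ρ1 1 with hρ
  have hρ0 : 0 < ρ := lt_min hρ1 one_pos
  set Q0 : ℂ → ℂ := fun z => G z - q z + ((r * Real.eulerMascheroniConstant : ℝ) : ℂ) with hQ0
  set C0 : ℝ := (Q0 0).re with hC0
  set Q : ℂ → ℂ := fun z => Q0 z - (C0 : ℂ) with hQ
  have hsub1 : Metric.ball (0 : ℂ) ρ ⊆ Metric.ball 0 1 := Metric.ball_subset_ball (min_le_right _ _)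
  have hsub2 : Metric.ball (0 : ℂ) ρ ⊆ Metric.ball 0 ρ1 := Metric.ball_subset_ball (min_le_left _ _)
  have hQd : DifferentiableOn ℂ Q (Metric.ball 0 ρ) :=
    (((hG.mono hsub1).sub (hq.mono hsub2)).add_const _).sub_const _
  have m1 := D.data.meas
  have m3 : Measurable fun u : ℝ => (r : ℝ) * Real.log u := Real.measurable_log.const_mul _
  have m4 : Measurable fun _ : ℝ => C0 * (1 : ℝ) := measurable_const
  have hint : ∀ w > 0, LInt (f0 a r C0) w := fun w hw =>
    ((hconv w hw).sub ((log_LInt hw).const_mul _)).sub ((one_LInt hw).const_mul _)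
  have hQe : ∀ z : ℂ, 0 < z.re → ‖z‖ < ρ → z * lapC (f0 a r C0) z = Q z := by
    intro z hz hzρ
    have h1 := hlq z hz (lt_of_lt_of_le hzρ (min_le_left _ _))
    rw [hlam] at h1
    simp only [pow_one] at h1
    have i1 := hconv _ hz
    have i3 := (log_LInt hz).const_mul (r : ℝ)
    have i4 := (one_LInt hz).const_mul C0
    have h2 : lapC (f0 a r C0) z = lapC a z -
        ((r : ℝ) : ℂ) * lapC Real.log z - (C0 : ℂ) * lapC (fun _ => (1 : ℝ)) z := by
      unfold f0
      rw [lapC_sub' (f := fun u => a u - (r : ℝ) * Real.log u)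
          (g := fun _ => C0 * 1) (m1.sub m3) m4 (i1.sub i3) i4,
        lapC_sub' (f := a) (g := fun u => (r : ℝ) * Real.log u) m1 m3 i1 i3, lapC_const_mul',
        lapC_const_mul']
    have h3 := log_lapC hz
    have h4 := one_lapC hz
    rw [h2, hQ, hQ0]
    simp only []
    push_cast
    linear_combination -h1 - (r : ℂ) * h3 - (C0 : ℂ) * h4
  have hQ00 : Q 0 = 0 := by
    have h1 : Tendsto (fun w : ℝ => Q w) (𝓝[>] 0) (𝓝 (Q 0)) := by
      have h2 : ContinuousAt Q 0 :=
        (hQd.differentiableAt (Metric.ball_mem_nhds 0 hρ0)).continuousAt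
      have h3 : Tendsto (fun w : ℝ => (w : ℂ)) (𝓝[>] 0) (𝓝 0) := by
        have := Complex.continuous_ofReal.tendsto 0
        rw [Complex.ofReal_zero] at this
        exact tendsto_nhdsWithin_of_tendsto_nhds this
      exact h2.tendsto.comp h3
    have h2 : Tendsto (fun w : ℝ => (Q w).im) (𝓝[>] 0) (𝓝 (Q 0).im) :=
      (Complex.continuous_im.tendsto _).comp h1
    have h3 : Tendsto (fun w : ℝ => (Q w).im) (𝓝[>] 0) (𝓝 0) := by
      refine tendsto_const_nhds.congr' ?_
      filter_upwards [self_mem_nhdsWithin, Ioo_mem_nhdsGT hρ0] with w hw1 hw2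
      have hw : (0 : ℝ) < w := hw1
      have h9 := hQe w (by simpa using hw) (by
        rw [Complex.norm_real, Real.norm_of_nonneg hw.le]; exact hw2.2)
      rw [← h9, lapC_ofReal, ← Complex.ofReal_mul, Complex.ofReal_im]
    have h4 := tendsto_nhds_unique h2 h3
    apply Complex.ext
    · rw [hQ]
      simp [hC0]
    · rw [h4]; simp
  refine ⟨C0, dslope Q 0, ρ, (m1.sub m3).sub m4, hint, hρ0, ?_, ?_⟩
  · exact ((Complex.differentiableOn_dslope (Metric.ball_mem_nhds 0 hρ0)).mpr hQd).continuousOn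
  · intro z hz hzρ
    have hz0 : z ≠ 0 := by
      intro h0
      rw [h0] at hz
      simp at hz
    rw [dslope_of_ne _ hz0, slope_def_field, hQ00, sub_zero, sub_zero, ← hQe z hz hzρ,
      mul_div_cancel_left₀ _ hz0]

end Pool.Agent.W524.DY
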